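import Mathlib
import Pool.Agent.TH497.PW.IntFlow
import Pool.Agent.TH362.FP.Pos
import Pool.Agent.Y335.FL.Main
import Pool.Agent.X65.FT.Hole

set_option autoImplicit false

/-!
# Graphs without long induced circuits (MP_974d84_co)

Let `G` be a bridgeless multigraph in which every induced circuit has at most 19 vertices (parallel
edges and loops are disregarded here; chordality at most 19).  Then `G` has a nowhere-zero 5-flow,
and the characteristic polynomial of its bond matroid is positive at all integers `q ≥ 5`.  In
particular this holds for all bridgeless graphs without an induced path with 19 vertices.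

Proof.  The class is closed under contractions (not under deletions): if a vertex of an induced
circuit of the contracted graph is split into the two ends of the contracted edge, then one of them
or both give an induced circuit which is at least as long.  Let `G` be a counterexample with as few
edges as possible.  Circuits with at most eleven edges can be contracted (library `Y335/FL` of
helper335), and so can one of two edges which form a cut; hence `G` has girth at least twelve and
all degrees are at least three (apart from isolated vertices).  Let `v_1 ... v_k` be a longest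
induced path.  The vertex `v_k` has two neighbours `w`, `w'` which are not on the path, and both
have another neighbour on the path; let `v_a` and `v_b` be the last ones.  Then `w v_a ... v_k`
and `w' v_b ... v_k` are induced circuits, and so `k - 17 ≤ a, b ≤ k - 10`.  But then
`v_k w v_a ... v_b w'` is a circuit with at most eleven edges, a contradiction.
-/


namespace Pool.Agent.Results.MP_974d84_co.InducedCircuits

open Pool.Agent.TH497.PW

variable {V E : Type}

/-- The edges with exactly one end in `X`. -/
def boundary [DecidableEq V] [Fintype E] (src dst : E → V) (X : Finset V) : Finset E :=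
  Finset.univ.filter (fun e => ¬ (src e ∈ X ↔ dst e ∈ X))

/-- Kirchhoff's law. -/
def IsFlow [DecidableEq V] [Fintype E] (src dst : E → V) (f : E → ℤ) : Prop :=
  ∀ v : V, ∑ e ∈ Finset.univ.filter (fun e => src e = v), f e
    = ∑ e ∈ Finset.univ.filter (fun e => dst e = v), f e

/-- The number of the components of the graph with the vertices `V` and the edges `A`. -/
noncomputable def components (src dst : E → V) (A : Finset E) : ℕ :=
  Nat.card (SimpleGraph.fromRel
    (fun u v : V => ∃ e ∈ A, src e = u ∧ dst e = v)).ConnectedComponent

/-- The rank of `A` in the cycle matroid of the graph. -/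
noncomputable def cycleRank [Fintype V] (src dst : E → V) (A : Finset E) : ℕ :=
  Fintype.card V - components src dst A

/-- The rank of `A` in the bond matroid of the graph (the dual of the cycle matroid). -/
noncomputable def bondRank [Fintype V] [Fintype E] [DecidableEq E] (src dst : E → V)
    (A : Finset E) : ℕ :=
  A.card + cycleRank src dst Aᶜ - cycleRank src dst Finset.univ

/-- The characteristic polynomial of the bond matroid at the integer `x`. -/
noncomputable def bondCharPoly [Fintype V] [Fintype E] [DecidableEq E] (src dst : E → V)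
    (x : ℤ) : ℤ :=
  ∑ A : Finset E, (-1) ^ A.card * x ^ (bondRank src dst Finset.univ - bondRank src dst A)

theorem isFlow_iff [DecidableEq V] [Fintype E] (src dst : E → V) (f : E → ℤ) :
    IsFlow src dst f ↔
      ∀ v, ∑ e, f e * ((if src e = v then 1 else 0) - (if dst e = v then 1 else 0)) = 0 := by
  unfold IsFlow
  refine forall_congr' fun v => ?_
  rw [Finset.sum_filter, Finset.sum_filter, ← sub_eq_zero, ← Finset.sum_sub_distrib]
  have : ∀ e, (if src e = v then f e else 0) - (if dst e = v then f e else 0)
      = f e * ((if src e = v then 1 else 0) - (if dst e = v then 1 else 0)) := by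
    intro e
    by_cases h1 : src e = v <;> by_cases h2 : dst e = v <;> simp [h1, h2]
  rw [Finset.sum_congr rfl (fun e _ => this e)]

theorem nzf [Fintype V] [DecidableEq V] [Fintype E] [DecidableEq E] (src dst : E → V)
    (h : Pool.Agent.TH676.Z.FlowOn src dst ∅ ∅) : NZF src dst := by
  obtain ⟨f, h1, _, h3⟩ := h
  refine ⟨f, fun e => h3 e (Finset.notMem_empty _) (Finset.notMem_empty _), fun x => ?_⟩
  rw [← h1 x]
  unfold Pool.Agent.TH676.Z.bd
  refine Finset.sum_congr rfl fun e _ => ?_
  unfold ic
  by_cases h4 : src e = x <;> by_cases h5 : dst e = x <;> simp [h4, h5]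

theorem charPoly_pos [Fintype V] [DecidableEq V] [Fintype E] [DecidableEq E] (src dst : E → V)
    (f : E → ℤ) (h1 : IsFlow src dst f) (h2 : ∀ e, 1 ≤ |f e| ∧ |f e| ≤ 4) (q : ℕ) (hq : 5 ≤ q) :
    0 < bondCharPoly src dst q :=
  Pool.Agent.TH362.FP.chr_pos src dst f h2 h1 q hq

/-- There is an edge between `x` and `y`, and `x ≠ y`. -/
def Adjacent (src dst : E → V) (x y : V) : Prop :=
  x ≠ y ∧ ∃ e, (src e = x ∧ dst e = y) ∨ (src e = y ∧ dst e = x)

/-- `c` is a circuit of distinct vertices in which only consecutive vertices are adjacent. -/
def IsInducedCircuit (src dst : E → V) {n : ℕ} (c : Fin n → V) : Prop :=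
  Function.Injective c ∧ ∀ i j : Fin n, Adjacent src dst (c i) (c j) ↔
    (j.val = (i.val + 1) % n ∨ i.val = (j.val + 1) % n)

theorem induced [Fintype V] [DecidableEq V] [Fintype E] [DecidableEq E] {src dst : E → V} {n : ℕ}
    {f : ℕ → V} (h : Pool.Agent.X65.FT.IsHole src dst n f) :
    IsInducedCircuit src dst (fun i : Fin n => f i.val) := by
  have h3 := h.three
  have hlt : ∀ i j : Fin n, i.val < j.val → (Adjacent src dst (f i.val) (f j.val) ↔
      (j.val = (i.val + 1) % n ∨ i.val = (j.val + 1) % n)) := by
    intro i j hij
    have h1 : (i.val + 1) % n = i.val + 1 := Nat.mod_eq_of_lt (by omega)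
    have h2 : j.val + 1 = n ∧ (j.val + 1) % n = 0 ∨ j.val + 1 < n ∧ (j.val + 1) % n = j.val + 1 := by
      rcases Nat.lt_or_ge (j.val + 1) n with h4 | h4
      · exact Or.inr ⟨h4, Nat.mod_eq_of_lt h4⟩
      · have h5 : j.val + 1 = n := by omega
        exact Or.inl ⟨h5, by rw [h5, Nat.mod_self]⟩
    refine (h.adj i.val j.val hij j.2).trans ?_
    rw [h1]
    rcases h2 with ⟨h4, h5⟩ | ⟨h4, h5⟩ <;> rw [h5] <;> omega
  refine ⟨?_, ?_⟩
  · intro i j hij
    rcases lt_trichotomy i.val j.val with h1 | h1 | h1
    · exact absurd hij (h.inj _ _ h1 j.2)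
    · exact Fin.ext h1
    · exact absurd hij.symm (h.inj _ _ h1 i.2)
  · intro i j
    rcases lt_trichotomy i.val j.val with h1 | h1 | h1
    · exact hlt i j h1
    · have hij : i = j := Fin.ext h1
      subst hij
      refine iff_of_false (fun hh => hh.1 rfl) ?_
      intro hh
      have h4 : i.val = (i.val + 1) % n := by rcases hh with hh | hh <;> exact hh
      rcases Nat.lt_or_ge (i.val + 1) n with h5 | h5
      · rw [Nat.mod_eq_of_lt h5] at h4
        omega
      · have h6 : i.val + 1 = n := by omega
        rw [h6, Nat.mod_self] at h4
        omega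
    · have h4 := hlt j i h1
      have h5 : Adjacent src dst (f i.val) (f j.val) ↔ Adjacent src dst (f j.val) (f i.val) :=
        Pool.Agent.X65.FT.adj_comm'
      exact h5.trans (h4.trans Or.comm)

theorem result :
    ∀ (V E : Type) [Fintype V] [DecidableEq V] [Fintype E] [DecidableEq E] (src dst : E → V),
      (∀ (n : ℕ) (c : Fin n → V), 3 ≤ n → IsInducedCircuit src dst c → n ≤ 19) →
      (∀ Y : Finset V, (boundary src dst Y).card ≠ 1) →
      (∃ f : E → ℤ, IsFlow src dst f ∧ ∀ e, 1 ≤ |f e| ∧ |f e| ≤ 4) ∧
      ∀ q : ℕ, 5 ≤ q → 0 < bondCharPoly src dst q := by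
  intro V E _ _ _ _ src dst hm hb
  have hcl : Pool.Agent.X65.FT.ClC src dst := fun n f hf => hm n _ hf.three (induced hf)
  have hfl := Pool.Agent.X65.FT.flow_of_ClC Pool.Agent.Y335.FL.contract_all src dst hcl
    (fun Y _ => by rw [Finset.sdiff_empty]; exact hb Y)
  obtain ⟨F, hF, hF0⟩ := int_flow src dst (nzf src dst hfl)
  have hF1 := (isFlow_iff src dst F).mpr hF0
  exact ⟨⟨F, hF1, hF⟩, fun q hq => charPoly_pos src dst F hF1 hF q hq⟩

end Pool.Agent.Results.MP_974d84_co.InducedCircuits
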